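import Pool.Agent.Q214.OC.Cpx

/-!
# Equality of coded open sets: if it is Borel (even analytic), then it is a `G_δ` set

For a space `X` with an enumerated countable basis `U`, the closed subsets of `X` are coded by
complexes of finite subsets of `ω`, in such a way that the union of a compact set of complexes codes
the union of the closed sets. If the equality of the coded open sets is analytic, then so is, for
every `m`, the set of the complexes whose closed set does not meet `U m`. This set is closed under
unions of compact subsets and downward closed, so it has a monotone cofinal family of compact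
subsets indexed by the Baire space, and therefore it is a `G_δ` set (a theorem of Christensen).
-/

open Set TopologicalSpace MeasureTheory

namespace Pool.Agent.Results.MP_e9e8de_lc.EqualityOfOpenCodes

/-- The equivalence relation `E_{X, (U_n)}` on the Baire space: `x` and `y` code the same open
set. -/
def E {X : Type*} (U : ℕ → Set X) : Set ((ℕ → ℕ) × (ℕ → ℕ)) :=
  {p | ⋃ n, U (p.1 n) = ⋃ n, U (p.2 n)}

open Q214.OC in
lemma isGδ_E {X : Type*} [TopologicalSpace X] (U : ℕ → Set X)
    (hU : IsTopologicalBasis (range U)) (h : AnalyticSet (E U)) : IsGδ (E U) := by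
  have hS : ∀ m, IsGδ (Sm U m) := by
    intro m
    apply isGδ_Sm hU
    let f : (ℕ → ℕ) → (ℕ → ℕ) × (ℕ → ℕ) := fun y => (fun n => Nat.casesOn n m y, y)
    have hf : Continuous f := by
      refine Continuous.prodMk (continuous_pi fun n => ?_) continuous_id
      cases n with
      | zero => exact continuous_const
      | succ n => exact continuous_apply (A := fun _ : ℕ => ℕ) n
    have heq : Sm U m = f ⁻¹' (E U) := by
      ext y
      have h1 : ⋃ n, U ((f y).1 n) = U m ∪ ⋃ n, U (y n) := by
        apply Subset.antisymm
        · apply iUnion_subset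
          intro n
          cases n with
          | zero => exact subset_union_left
          | succ n => exact (subset_iUnion (fun n => U (y n)) n).trans subset_union_right
        · apply union_subset
          · exact subset_iUnion (fun n => U ((f y).1 n)) 0
          · exact iUnion_subset fun n => subset_iUnion (fun n => U ((f y).1 n)) (n + 1)
      show U m ⊆ ⋃ n, U (y n) ↔ ⋃ n, U ((f y).1 n) = ⋃ n, U (y n)
      rw [h1, union_eq_right]
    rw [heq]
    exact h.preimage hf
  have key : ∀ (n : ℕ) (a b : (ℕ → ℕ) × (ℕ → ℕ) → ℕ → ℕ), Continuous a → Continuous b →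
      IsGδ {p | U (a p n) ⊆ ⋃ k, U (b p k)} := by
    intro n a b ha hb
    have : {p | U (a p n) ⊆ ⋃ k, U (b p k)} = ⋂ m : ℕ, ({p | a p n ≠ m} ∪ b ⁻¹' (Sm U m)) := by
      ext p
      simp only [mem_ofPred_eq, mem_iInter, mem_union, mem_preimage, Sm]
      constructor
      · intro h m
        by_cases hm : a p n = m
        · right
          rw [← hm]
          exact h
        · exact Or.inl hm
      · intro h
        rcases h (a p n) with h | h
        · exact absurd rfl h
        · exact h
    rw [this]
    refine IsGδ.iInter fun m => IsGδ.union ?_ ((hS m).preimage hb)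
    have hc : Continuous fun p => a p n := (continuous_apply (A := fun _ : ℕ => ℕ) n).comp ha
    exact ((isOpen_discrete {k : ℕ | k ≠ m}).preimage hc).isGδ
  have hE : E U = (⋂ n, {p : (ℕ → ℕ) × (ℕ → ℕ) | U (p.1 n) ⊆ ⋃ k, U (p.2 k)}) ∩
      (⋂ n, {p : (ℕ → ℕ) × (ℕ → ℕ) | U (p.2 n) ⊆ ⋃ k, U (p.1 k)}) := by
    ext p
    simp only [E, mem_ofPred_eq, mem_inter_iff, mem_iInter]
    constructor
    · intro h
      refine ⟨fun n => ?_, fun n => ?_⟩
      · rw [← h]
        exact subset_iUnion (fun n => U (p.1 n)) n
      · rw [h]
        exact subset_iUnion (fun n => U (p.2 n)) n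
    · rintro ⟨h1, h2⟩
      exact Subset.antisymm (iUnion_subset h1) (iUnion_subset h2)
  rw [hE]
  exact (IsGδ.iInter fun n => key n _ _ continuous_fst continuous_snd).inter
    (IsGδ.iInter fun n => key n _ _ continuous_snd continuous_fst)

/-- Let `X` be any topological space with an enumerated countable basis `U`. If the equivalence
relation `E_{X, U}` is Borel, or only analytic, then it is a `G_δ` set, that is `Π⁰₂`. -/
theorem result {X : Type*} [TopologicalSpace X] (U : ℕ → Set X)
    (hU : IsTopologicalBasis (range U)) :
    (@MeasurableSet ((ℕ → ℕ) × (ℕ → ℕ)) (borel _) (E U) → IsGδ (E U)) ∧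
      (AnalyticSet (E U) → IsGδ (E U)) := by
  refine ⟨fun h => isGδ_E U hU ?_, isGδ_E U hU⟩
  have h0 : borel ((ℕ → ℕ) × (ℕ → ℕ)) = Prod.instMeasurableSpace := BorelSpace.measurable_eq.symm
  rw [h0] at h
  exact h.analyticSet

end Pool.Agent.Results.MP_e9e8de_lc.EqualityOfOpenCodes
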